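import Mathlib
import Pool.Agent.Helper49.Sph.LB2
import Pool.Agent.Helper17.SCD.Fin

set_option autoImplicit false

namespace Pool.Agent.Results.MP_480816_co.EightFifths

/-- a finite set of unit vectors whose distinct pairs have inner product negative or equal to `α` -/
def IsCode (α : ℝ) {d : ℕ} (S : Finset (EuclideanSpace ℝ (Fin d))) : Prop :=
  (∀ x ∈ S, ‖x‖ = 1) ∧ ∀ x ∈ S, ∀ y ∈ S, x ≠ y → (inner ℝ x y < 0 ∨ inner ℝ x y = α)

/-- For every fixed `α ∈ (0, 1)` which is not the reciprocal of an integer the largest size of a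
`[-1,0) ∪ {α}`-code in dimension `d` is at least of order `d^(3/2)` and at most of order `d^(8/5)`. -/
theorem result (α : ℝ) (h0 : 0 < α) (h1 : α < 1) (hn : ∀ n : ℕ, (n : ℝ) * α ≠ 1) :
    ∃ κ C : ℝ, 0 < κ ∧ ∀ d : ℕ, 1 ≤ d →
      (∀ S : Finset (EuclideanSpace ℝ (Fin d)), IsCode α S → (S.card : ℝ) ≤ C * (d : ℝ) ^ (8 / 5 : ℝ)) ∧
      ∃ S : Finset (EuclideanSpace ℝ (Fin d)), IsCode α S ∧ κ * (d : ℝ) ^ (3 / 2 : ℝ) ≤ S.card := by
  obtain ⟨κ, hκ, hlow⟩ := Pool.Agent.Helper49.Sph.lower_bound h0 h1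
  obtain ⟨C, hC⟩ := Pool.Agent.Helper17.SCD.upper_gen α h0 h1 hn
  refine ⟨κ, C, hκ, fun d hd => ⟨fun S hS => hC hd hS, ?_⟩⟩
  obtain ⟨S, hc, hn, hi⟩ := hlow d hd
  exact ⟨S, ⟨hn, hi⟩, hc⟩

end Pool.Agent.Results.MP_480816_co.EightFifths
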