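import Mathlib
import Pool.Agent.Helper49.Sph.C4
import Pool.Agent.Helper49.Sph.R4
import Pool.Agent.Helper49.Sph.LB2
import Pool.Agent.Helper17.SCD.Fin
import Pool.Agent.Helper17.SCD.HalfFin

set_option autoImplicit false

namespace Pool.Agent.Results.MP_480816_co.ExactAboveThird

/-- a finite set of unit vectors whose distinct pairs have inner product negative or equal to `α` -/
def IsCode (α : ℝ) {d : ℕ} (S : Finset (EuclideanSpace ℝ (Fin d))) : Prop :=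
  (∀ x ∈ S, ‖x‖ = 1) ∧ ∀ x ∈ S, ∀ y ∈ S, x ≠ y → (inner ℝ x y < 0 ∨ inner ℝ x y = α)

/-- For every fixed `α ∈ (1/3, 1)` the largest size of a `[-1,0) ∪ {α}`-code in dimension `d`
has exact order `d^(3/2)`. -/
theorem result (α : ℝ) (h0 : 1 / 3 < α) (h1 : α < 1) :
    ∃ κ C : ℝ, 0 < κ ∧ ∀ d : ℕ, 1 ≤ d →
      (∀ S : Finset (EuclideanSpace ℝ (Fin d)), IsCode α S → (S.card : ℝ) ≤ C * (d : ℝ) ^ (3 / 2 : ℝ)) ∧
      ∃ S : Finset (EuclideanSpace ℝ (Fin d)), IsCode α S ∧ κ * (d : ℝ) ^ (3 / 2 : ℝ) ≤ S.card := by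
  have hp : 0 < α := by linarith
  obtain ⟨κ, hκ, hlow⟩ := Pool.Agent.Helper49.Sph.lower_bound hp h1
  have hup : ∃ C : ℝ, ∀ d : ℕ, 1 ≤ d → ∀ S : Finset (EuclideanSpace ℝ (Fin d)), IsCode α S →
      (S.card : ℝ) ≤ C * (d : ℝ) ^ (3 / 2 : ℝ) := by
    rcases lt_trichotomy α (1 / 2) with h | h | h
    · obtain ⟨C, hC⟩ := Pool.Agent.Helper17.SCD.upper_exact α h0 h
      exact ⟨C, fun d hd S hS => hC hd hS⟩
    · obtain ⟨C, hC⟩ := Pool.Agent.Helper17.SCD.upper_half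
      subst h
      exact ⟨C, fun d hd S hS => hC hd hS⟩
    · obtain ⟨R, hR⟩ := Pool.Agent.Helper49.Sph.reduction h h1
      refine ⟨R * (32 / (1 - α) ^ 2), fun d hd S hS => ?_⟩
      obtain ⟨P, hPS, hT, hc⟩ := hR d S ⟨hS.1, hS.2⟩
      have hcore := Pool.Agent.Helper49.Sph.core hp h1 P
        ⟨fun x hx => hS.1 x (hPS hx), fun x hx y hy => hS.2 x (hPS hx) y (hPS hy)⟩ hT
      have hc' : (S.card : ℝ) ≤ R * P.card := by exact_mod_cast hc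
      calc (S.card : ℝ) ≤ R * P.card := hc'
        _ ≤ R * (32 / (1 - α) ^ 2 * (d : ℝ) ^ (3 / 2 : ℝ)) :=
            mul_le_mul_of_nonneg_left hcore (Nat.cast_nonneg R)
        _ = R * (32 / (1 - α) ^ 2) * (d : ℝ) ^ (3 / 2 : ℝ) := by ring
  obtain ⟨C, hC⟩ := hup
  refine ⟨κ, C, hκ, fun d hd => ⟨fun S hS => hC d hd S hS, ?_⟩⟩
  obtain ⟨S, hc, hn, hi⟩ := hlow d hd
  exact ⟨S, ⟨hn, hi⟩, hc⟩

end Pool.Agent.Results.MP_480816_co.ExactAboveThird
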