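import Mathlib
import Pool.Agent.QC.Asy
import Pool.Agent.Helper17.Sph.Upper

set_option autoImplicit false

namespace Pool.Agent.Results.MP_480816_co.ExponentTwo

/-- a finite set of unit vectors whose distinct pairs have inner product negative or equal to `α` -/
def IsCode (α : ℝ) {d : ℕ} (S : Finset (EuclideanSpace ℝ (Fin d))) : Prop :=
  (∀ x ∈ S, ‖x‖ = 1) ∧ ∀ x ∈ S, ∀ y ∈ S, x ≠ y → (inner ℝ x y < 0 ∨ inner ℝ x y = α)

/-- For every `α` the maximal size of a code is `O(d^2)`, and for every `α = 1/m`, `m ≥ 4`, it is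
at least `d^2 exp(-C √(log d))`. -/
theorem result :
    (∀ α : ℝ, ∃ C : ℝ, ∀ d : ℕ, ∀ S : Finset (EuclideanSpace ℝ (Fin d)), IsCode α S →
      (S.card : ℝ) ≤ C * (d : ℝ) ^ 2) ∧
    ∀ m : ℕ, 4 ≤ m → ∃ C : ℝ, ∀ d : ℕ, 1 ≤ d → ∃ S : Finset (EuclideanSpace ℝ (Fin d)),
      IsCode (1 / (m : ℝ)) S ∧ (d : ℝ) ^ 2 * Real.exp (-C * √(Real.log d)) ≤ S.card := by
  refine ⟨fun α => ?_, fun m hm => ?_⟩
  · obtain ⟨C, _, hC⟩ := Helper17.Sph.upper α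
    exact ⟨C, fun d S hS => hC d S hS.1 hS.2⟩
  · obtain ⟨C, h⟩ := QC.asy hm
    refine ⟨C, fun d hd => ?_⟩
    obtain ⟨S, h1, h2, h3⟩ := h d hd
    exact ⟨S, ⟨h2, h3⟩, h1⟩

end Pool.Agent.Results.MP_480816_co.ExponentTwo
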