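import Mathlib
import Pool.Agent.SCX.ThC

set_option autoImplicit false

namespace Pool.Agent.Results.MP_480816_co.OneThird

/-- a finite set of unit vectors whose distinct pairs have inner product negative or equal to `α` -/
def IsCode (α : ℝ) {d : ℕ} (S : Finset (EuclideanSpace ℝ (Fin d))) : Prop :=
  (∀ x ∈ S, ‖x‖ = 1) ∧ ∀ x ∈ S, ∀ y ∈ S, x ≠ y → (inner ℝ x y < 0 ∨ inner ℝ x y = α)

/-- For `α = 1/3` the largest size of a `[-1,0) ∪ {α}`-code in dimension `d` is at least of order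
`d^(5/3)`. -/
theorem result : ∃ c : ℝ, 0 < c ∧ ∀ d : ℕ, 1 ≤ d →
    ∃ S : Finset (EuclideanSpace ℝ (Fin d)), IsCode (1 / 3) S ∧
      c * (d : ℝ) ^ (5 / 3 : ℝ) ≤ S.card := by
  obtain ⟨c, hc, h⟩ := SCX.third
  refine ⟨c, hc, fun d hd => ?_⟩
  obtain ⟨S, h1, h2, h3⟩ := h d hd
  exact ⟨S, ⟨h2, h3⟩, h1⟩

end Pool.Agent.Results.MP_480816_co.OneThird
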